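import Mathlib
import Pool.Agent.Q299.FixPt

set_option autoImplicit false

namespace Pool.Agent.Results.MP_55c7a7_lc.FreeSemigroup

open Filter Pool.Agent.Q299.FixPt

/-- The Rudin-Keisler preorder: `u` is the image of `v` under some map. -/
def RK (u v : Ultrafilter ℕ) : Prop := ∃ f : ℕ → ℕ, v.map f = u

/-- `u` and `v` are isomorphic. -/
def Iso (u v : Ultrafilter ℕ) : Prop := RK u v ∧ RK v u

/-- `u` is nonprincipal. -/
def Nonprincipal (u : Ultrafilter ℕ) : Prop := ∀ n : ℕ, u ≠ pure n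

/-- Weak P-points: nonprincipal ultrafilters that are not in the closure of any countable set of
nonprincipal ultrafilters different from them. -/
def WeakPPoint (u : Ultrafilter ℕ) : Prop :=
  Nonprincipal u ∧ ∀ F : Set (Ultrafilter ℕ), F.Countable → (∀ w ∈ F, Nonprincipal w ∧ w ≠ u) →
    u ∉ closure F

/-- The tensor product, transferred to `ℕ` by the pairing bijection:
`A ∈ ten u v` iff `{i | {j | pair i j ∈ A} ∈ v} ∈ u`. -/
def ten (u v : Ultrafilter ℕ) : Ultrafilter ℕ := u.bind (fun i => v.map (Nat.pair i))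

/-- The product `a ⊗ (b₁ ⊗ (b₂ ⊗ ...))` of the nonempty word `a, b₁, b₂, ...`. -/
def prodW : Ultrafilter ℕ → List (Ultrafilter ℕ) → Ultrafilter ℕ
  | a, [] => a
  | a, b :: l => ten a (prodW b l)

theorem mem_ten {u v : Ultrafilter ℕ} {p : ℕ → Prop} : (∀ᶠ x in (ten u v : Filter ℕ), p x) ↔
    ∀ᶠ i in (u : Filter ℕ), ∀ᶠ j in (v : Filter ℕ), p (Nat.pair i j) := Iff.rfl

theorem ev_map {u v : Ultrafilter ℕ} {f : ℕ → ℕ} (h : u.map f = v) (p : ℕ → Prop) :
    (∀ᶠ y in (v : Filter ℕ), p y) ↔ ∀ᶠ x in (u : Filter ℕ), p (f x) := by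
  rw [← h]
  exact Iff.rfl

theorem RK.trans {u v w : Ultrafilter ℕ} (h1 : RK u v) (h2 : RK v w) : RK u w := by
  obtain ⟨f, rfl⟩ := h1
  obtain ⟨g, rfl⟩ := h2
  exact ⟨f ∘ g, (Ultrafilter.map_map _ _ _).symm⟩

theorem RK_ten (u v : Ultrafilter ℕ) : RK u (ten u v) := by
  refine ⟨fun x => (Nat.unpair x).1, ?_⟩
  apply Ultrafilter.coe_injective
  ext A
  change (∀ᶠ i in (u : Filter ℕ), ∀ᶠ j in (v : Filter ℕ), (Nat.unpair (Nat.pair i j)).1 ∈ A) ↔ A ∈ u
  simp only [Nat.unpair_pair]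
  simp only [Filter.eventually_const]
  rfl

theorem nonprincipal_of_RK {u v : Ultrafilter ℕ} (h : RK u v) (hu : Nonprincipal u) :
    Nonprincipal v := by
  rintro n rfl
  obtain ⟨f, hf⟩ := h
  apply hu (f n)
  rw [← hf]
  rfl

theorem ne_of_nonprincipal {u : Ultrafilter ℕ} (hu : Nonprincipal u) (n : ℕ) :
    ∀ᶠ x in (u : Filter ℕ), x ≠ n := by
  by_contra h
  rw [← Ultrafilter.eventually_not] at h
  have h1 : ({n} : Set ℕ) ∈ u := by
    filter_upwards [h] with x hx
    by_contra h2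
    exact hx h2
  obtain ⟨x, hx, h2⟩ := Ultrafilter.eq_pure_of_finite_mem (Set.finite_singleton n) h1
  exact hu x h2

theorem gt_of_nonprincipal {u : Ultrafilter ℕ} (hu : Nonprincipal u) (n : ℕ) :
    ∀ᶠ x in (u : Filter ℕ), n < x := by
  have h1 : ∀ᶠ x in (u : Filter ℕ), ∀ m ∈ Finset.range (n + 1), x ≠ m := by
    rw [Filter.eventually_all_finset]
    intro m _
    exact ne_of_nonprincipal hu m
  filter_upwards [h1] with x hx
  by_contra h2
  exact hx x (Finset.mem_range.2 (by omega)) rfl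

/-- The dichotomy for limits of sequences with value a weak P-point. -/
theorem dich {b : Ultrafilter ℕ} (hb : WeakPPoint b) (a : Ultrafilter ℕ) (c : ℕ → Ultrafilter ℕ)
    (hlim : ∀ B : Set ℕ, B ∈ b ↔ ∀ᶠ n in (a : Filter ℕ), B ∈ c n) :
    (∀ᶠ n in (a : Filter ℕ), c n = b) ∨
      ∃ h : ℕ → ℕ, ∀ᶠ n in (a : Filter ℕ), c n = pure (h n) := by
  by_cases h1 : ∀ᶠ n in (a : Filter ℕ), c n = b
  · exact Or.inl h1
  right
  rw [← Ultrafilter.eventually_not] at h1
  have h2 : ¬ ∀ᶠ n in (a : Filter ℕ), Nonprincipal (c n) := by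
    intro h2
    let N : Set ℕ := {n | c n ≠ b ∧ Nonprincipal (c n)}
    have hN : ∀ᶠ n in (a : Filter ℕ), n ∈ N := by
      filter_upwards [h1, h2] with n hn1 hn2
      exact ⟨hn1, hn2⟩
    have hcl := hb.2 (c '' N) ((Set.to_countable N).image c) (by
      rintro _ ⟨n, hn, rfl⟩
      exact ⟨hn.2, hn.1⟩)
    rw [ultrafilterBasis_is_basis.mem_closure_iff] at hcl
    push Not at hcl
    obtain ⟨o, ⟨B, rfl⟩, hB, hemp⟩ := hcl
    have h3 := (hlim B).1 hB
    obtain ⟨n, hn1, hn2⟩ := (h3.and hN).exists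
    have : c n ∈ {w : Ultrafilter ℕ | B ∈ w} ∩ c '' N := ⟨hn1, n, hn2, rfl⟩
    rw [hemp] at this
    exact this
  rw [← Ultrafilter.eventually_not] at h2
  have h3 : ∀ n, ∃ m : ℕ, ¬ Nonprincipal (c n) → c n = pure m := by
    intro n
    by_cases h : Nonprincipal (c n)
    · exact ⟨0, fun h' => absurd h h'⟩
    · have h' := h
      unfold Nonprincipal at h'
      push Not at h'
      obtain ⟨m, hm⟩ := h'
      exact ⟨m, fun _ => hm⟩
  choose h hh using h3
  refine ⟨h, ?_⟩
  filter_upwards [h2] with n hn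
  exact hh n hn

/-- the first coordinate of the image -/
def cc (U : Ultrafilter ℕ) (φ : ℕ → ℕ) (n : ℕ) : Ultrafilter ℕ :=
  U.map (fun j => (Nat.unpair (φ (Nat.pair n j))).1)

theorem cc_lim {a U b V : Ultrafilter ℕ} {φ : ℕ → ℕ} (h : (ten a U).map φ = ten b V) (B : Set ℕ) :
    B ∈ b ↔ ∀ᶠ n in (a : Filter ℕ), B ∈ cc U φ n := by
  have h1 : B ∈ b ↔ ∀ᶠ y in (ten b V : Filter ℕ), (Nat.unpair y).1 ∈ B := by
    rw [mem_ten]
    simp only [Nat.unpair_pair]
    simp only [Filter.eventually_const]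
    rfl
  rw [h1, ev_map h, mem_ten]
  exact Iff.rfl

theorem key_cases {a U b V : Ultrafilter ℕ} {φ ψ : ℕ → ℕ} (ha : WeakPPoint a) (hb : WeakPPoint b)
    (h1 : (ten a U).map φ = ten b V) (h2 : (ten b V).map ψ = ten a U)
    (h3 : ∀ᶠ x in (ten a U : Filter ℕ), ψ (φ x) = x)
    (h4 : ∀ᶠ y in (ten b V : Filter ℕ), φ (ψ y) = y) :
    ∃ h k : ℕ → ℕ, (∀ᶠ n in (a : Filter ℕ), cc U φ n = pure (h n)) ∧
      (∀ᶠ m in (b : Filter ℕ), cc V ψ m = pure (k m)) := by
  rcases dich hb a (cc U φ) (cc_lim h1) with c1 | ⟨h, c1⟩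
  · exfalso
    rcases dich ha b (cc V ψ) (cc_lim h2) with c2 | ⟨k, c2⟩
    · -- both projections are constant
      have h5 : ∀ᶠ x in (ten a U : Filter ℕ), (Nat.unpair x).1 < (Nat.unpair (φ x)).1 := by
        rw [mem_ten]
        filter_upwards [c1] with n hn
        have h6 : ∀ᶠ m in (cc U φ n : Filter ℕ), n < m := by
          rw [hn]
          exact gt_of_nonprincipal hb.1 n
        have h7 : ∀ᶠ j in (U : Filter ℕ), n < (Nat.unpair (φ (Nat.pair n j))).1 := h6
        filter_upwards [h7] with j hj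
        rw [Nat.unpair_pair]
        exact hj
      rw [ev_map h2] at h5
      have h8 : ∀ᶠ y in (ten b V : Filter ℕ), (Nat.unpair (ψ y)).1 < (Nat.unpair y).1 := by
        filter_upwards [h5, h4] with y hy1 hy2
        rw [hy2] at hy1
        exact hy1
      rw [mem_ten] at h8
      obtain ⟨m, hm1, hm2⟩ := (h8.and c2).exists
      have h9 : ∀ᶠ n in (cc V ψ m : Filter ℕ), n < m := by
        have h10 : ∀ᶠ j in (V : Filter ℕ), (Nat.unpair (ψ (Nat.pair m j))).1 < m := by
          filter_upwards [hm1] with j hj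
          rw [Nat.unpair_pair] at hj
          exact hj
        exact h10
      rw [hm2] at h9
      obtain ⟨n, hn1, hn2⟩ := (h9.and (gt_of_nonprincipal ha.1 m)).exists
      omega
    · have h5 : ∀ᶠ y in (ten b V : Filter ℕ), (Nat.unpair (ψ y)).1 = k (Nat.unpair y).1 := by
        rw [mem_ten]
        filter_upwards [c2] with m hm
        have h6 : ∀ᶠ n in (cc V ψ m : Filter ℕ), n = k m := by
          rw [hm]
          exact Filter.eventually_pure.2 rfl
        have h7 : ∀ᶠ j in (V : Filter ℕ), (Nat.unpair (ψ (Nat.pair m j))).1 = k m := h6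
        filter_upwards [h7] with j hj
        rw [Nat.unpair_pair]
        exact hj
      rw [ev_map h1] at h5
      have h8 : ∀ᶠ x in (ten a U : Filter ℕ), (Nat.unpair x).1 = k (Nat.unpair (φ x)).1 := by
        filter_upwards [h5, h3] with x hx1 hx2
        rw [hx2] at hx1
        exact hx1
      rw [mem_ten] at h8
      have h9 : ∀ᶠ n in (a : Filter ℕ), ∀ᶠ m in (b : Filter ℕ), n = k m := by
        filter_upwards [h8, c1] with n hn1 hn2
        have h10 : ∀ᶠ m in (cc U φ n : Filter ℕ), n = k m := by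
          have h11 : ∀ᶠ j in (U : Filter ℕ), n = k (Nat.unpair (φ (Nat.pair n j))).1 := by
            filter_upwards [hn1] with j hj
            rw [Nat.unpair_pair] at hj
            exact hj
          exact h11
        rw [hn2] at h10
        exact h10
      obtain ⟨n, hn⟩ := h9.exists
      obtain ⟨n', hn', hne⟩ := (h9.and (gt_of_nonprincipal ha.1 n)).exists
      obtain ⟨m, hm1, hm2⟩ := (hn.and hn').exists
      omega
  · rcases dich ha b (cc V ψ) (cc_lim h2) with c2 | ⟨k, c2⟩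
    · exfalso
      have h5 : ∀ᶠ x in (ten a U : Filter ℕ), (Nat.unpair (φ x)).1 = h (Nat.unpair x).1 := by
        rw [mem_ten]
        filter_upwards [c1] with m hm
        have h6 : ∀ᶠ n in (cc U φ m : Filter ℕ), n = h m := by
          rw [hm]
          exact Filter.eventually_pure.2 rfl
        have h7 : ∀ᶠ j in (U : Filter ℕ), (Nat.unpair (φ (Nat.pair m j))).1 = h m := h6
        filter_upwards [h7] with j hj
        rw [Nat.unpair_pair]
        exact hj
      rw [ev_map h2] at h5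
      have h8 : ∀ᶠ y in (ten b V : Filter ℕ), (Nat.unpair y).1 = h (Nat.unpair (ψ y)).1 := by
        filter_upwards [h5, h4] with x hx1 hx2
        rw [hx2] at hx1
        exact hx1
      rw [mem_ten] at h8
      have h9 : ∀ᶠ m in (b : Filter ℕ), ∀ᶠ n in (a : Filter ℕ), m = h n := by
        filter_upwards [h8, c2] with m hm1 hm2
        have h10 : ∀ᶠ n in (cc V ψ m : Filter ℕ), m = h n := by
          have h11 : ∀ᶠ j in (V : Filter ℕ), m = h (Nat.unpair (ψ (Nat.pair m j))).1 := by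
            filter_upwards [hm1] with j hj
            rw [Nat.unpair_pair] at hj
            exact hj
          exact h11
        rw [hm2] at h10
        exact h10
      obtain ⟨n, hn⟩ := h9.exists
      obtain ⟨n', hn', hne⟩ := (h9.and (gt_of_nonprincipal hb.1 n)).exists
      obtain ⟨m, hm1, hm2⟩ := (hn.and hn').exists
      omega
    · exact ⟨h, k, c1, c2⟩

theorem key_rk {a U b V : Ultrafilter ℕ} {φ ψ : ℕ → ℕ} {h k : ℕ → ℕ}
    (h1 : (ten a U).map φ = ten b V)
    (h3 : ∀ᶠ x in (ten a U : Filter ℕ), ψ (φ x) = x)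
    (c1 : ∀ᶠ n in (a : Filter ℕ), cc U φ n = pure (h n))
    (c2 : ∀ᶠ m in (b : Filter ℕ), cc V ψ m = pure (k m)) : RK V U := by
  classical
  have h5 : ∀ᶠ x in (ten a U : Filter ℕ), (Nat.unpair (φ x)).1 = h (Nat.unpair x).1 := by
    rw [mem_ten]
    filter_upwards [c1] with m hm
    have h6 : ∀ᶠ n in (cc U φ m : Filter ℕ), n = h m := by
      rw [hm]
      exact Filter.eventually_pure.2 rfl
    have h7 : ∀ᶠ j in (U : Filter ℕ), (Nat.unpair (φ (Nat.pair m j))).1 = h m := h6
    filter_upwards [h7] with j hj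
    rw [Nat.unpair_pair]
    exact hj
  have h6 : ∀ᶠ y in (ten b V : Filter ℕ), (Nat.unpair (ψ y)).1 = k (Nat.unpair y).1 := by
    rw [mem_ten]
    filter_upwards [c2] with m hm
    have h6 : ∀ᶠ n in (cc V ψ m : Filter ℕ), n = k m := by
      rw [hm]
      exact Filter.eventually_pure.2 rfl
    have h7 : ∀ᶠ j in (V : Filter ℕ), (Nat.unpair (ψ (Nat.pair m j))).1 = k m := h6
    filter_upwards [h7] with j hj
    rw [Nat.unpair_pair]
    exact hj
  rw [ev_map h1] at h6
  have h7 : ∀ᶠ n in (a : Filter ℕ), k (h n) = n := by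
    have h8 : ∀ᶠ x in (ten a U : Filter ℕ), k (h (Nat.unpair x).1) = (Nat.unpair x).1 := by
      filter_upwards [h5, h6, h3] with x hx1 hx2 hx3
      rw [hx3, hx1] at hx2
      exact hx2.symm
    rw [mem_ten] at h8
    filter_upwards [h8] with n hn
    obtain ⟨j, hj⟩ := hn.exists
    rw [Nat.unpair_pair] at hj
    exact hj
  have hab : ∀ p : ℕ → Prop, (∀ᶠ m in (b : Filter ℕ), p m) ↔ ∀ᶠ n in (a : Filter ℕ), p (h n) := by
    intro p
    have h8 := cc_lim h1 {m | p m}
    refine h8.trans (Filter.eventually_congr ?_)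
    filter_upwards [c1] with n hn
    rw [hn]
    exact Iff.rfl
  let X : ℕ → Ultrafilter ℕ := fun n => U.map (fun j => (Nat.unpair (φ (Nat.pair n j))).2)
  have hX : ∀ᶠ n in (a : Filter ℕ), X n = V := by
    by_contra hcon
    rw [← Ultrafilter.eventually_not] at hcon
    have h8 : ∀ n, ∃ C : Set ℕ, X n ≠ V → C ∈ V ∧ C ∉ X n := by
      intro n
      by_cases hn : X n = V
      · exact ⟨∅, fun h => absurd hn h⟩
      · have : ∃ C : Set ℕ, C ∈ V ∧ C ∉ X n := by
          by_contra h9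
          push Not at h9
          apply hn
          exact Ultrafilter.eq_of_le (fun C hC => h9 C hC)
        obtain ⟨C, hC⟩ := this
        exact ⟨C, fun _ => hC⟩
    choose C hC using h8
    have h9 : ∀ᶠ y in (ten b V : Filter ℕ), (Nat.unpair y).2 ∈ C (k (Nat.unpair y).1) := by
      rw [mem_ten, hab]
      filter_upwards [h7, hcon] with n hn1 hn2
      filter_upwards [(hC n hn2).1] with l hl
      rw [Nat.unpair_pair]
      change l ∈ C (k (h n))
      rw [hn1]
      exact hl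
    rw [ev_map h1, mem_ten] at h9
    rw [mem_ten] at h5
    obtain ⟨n, ⟨⟨hn1, hn2⟩, hn3⟩, hn4⟩ := (((h9.and h5).and h7).and hcon).exists
    apply (hC n hn4).2
    change ∀ᶠ j in (U : Filter ℕ), (Nat.unpair (φ (Nat.pair n j))).2 ∈ C n
    filter_upwards [hn1, hn2] with j hj1 hj2
    rw [hj2, Nat.unpair_pair] at hj1
    change (Nat.unpair (φ (Nat.pair n j))).2 ∈ C (k (h n)) at hj1
    rw [hn3] at hj1
    exact hj1
  obtain ⟨n, hn⟩ := hX.exists
  exact ⟨_, hn⟩

theorem exists_inverse {P Q : Ultrafilter ℕ} (h : Iso P Q) : ∃ φ ψ : ℕ → ℕ, P.map φ = Q ∧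
    Q.map ψ = P ∧ (∀ᶠ x in (P : Filter ℕ), ψ (φ x) = x) ∧
    (∀ᶠ y in (Q : Filter ℕ), φ (ψ y) = y) := by
  obtain ⟨⟨ψ, hψ⟩, ⟨φ, hφ⟩⟩ := h
  refine ⟨φ, ψ, hφ, hψ, ?_, ?_⟩
  · apply fix P (ψ ∘ φ)
    rw [← Ultrafilter.map_map, hφ, hψ]
  · apply fix Q (φ ∘ ψ)
    rw [← Ultrafilter.map_map, hψ, hφ]

/-- the cancellation lemma -/
theorem cancel {a U b V : Ultrafilter ℕ} (ha : WeakPPoint a) (hb : WeakPPoint b)
    (h : Iso (ten a U) (ten b V)) : Iso U V := by
  obtain ⟨φ, ψ, h1, h2, h3, h4⟩ := exists_inverse h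
  obtain ⟨f, k, c1, c2⟩ := key_cases ha hb h1 h2 h3 h4
  exact ⟨key_rk h2 h4 c2 c1, key_rk h1 h3 c1 c2⟩

theorem cancel_rk {a U b V : Ultrafilter ℕ} (ha : WeakPPoint a) (hb : WeakPPoint b)
    (h : Iso (ten a U) (ten b V)) : RK b a := by
  obtain ⟨φ, ψ, h1, h2, h3, h4⟩ := exists_inverse h
  obtain ⟨f, k, c1, c2⟩ := key_cases ha hb h1 h2 h3 h4
  refine ⟨f, ?_⟩
  apply Ultrafilter.coe_injective
  ext B
  rw [Ultrafilter.mem_coe, Ultrafilter.mem_coe, cc_lim h1 B]
  change (∀ᶠ n in (a : Filter ℕ), f n ∈ B) ↔ _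
  refine Filter.eventually_congr ?_
  filter_upwards [c1] with n hn
  rw [hn]
  exact Iff.rfl

/-- a weak P-point is not isomorphic to a product beginning with it -/
theorem not_iso_ten {a V : Ultrafilter ℕ} (ha : WeakPPoint a) (hV : Nonprincipal V)
    (b : Ultrafilter ℕ) (hb : Nonprincipal b) (h : Iso a (ten b V)) : False := by
  obtain ⟨ψ, φ, h1, h2, h3, h4⟩ := exists_inverse h
  -- `φ : ten b V → a`
  let c : ℕ → Ultrafilter ℕ := fun n => V.map (fun j => φ (Nat.pair n j))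
  have hlim : ∀ B : Set ℕ, B ∈ a ↔ ∀ᶠ n in (b : Filter ℕ), B ∈ c n := by
    intro B
    have : B ∈ a ↔ ∀ᶠ x in (a : Filter ℕ), x ∈ B := Iff.rfl
    rw [this, ev_map h2, mem_ten]
    exact Iff.rfl
  rw [mem_ten] at h4
  rcases dich ha b c hlim with c1 | ⟨h, c1⟩
  · obtain ⟨n, hn1, hn2⟩ := (c1.and h4).exists
    obtain ⟨n', ⟨hn1', hn2'⟩, hne⟩ := ((c1.and h4).and (gt_of_nonprincipal hb n)).exists
    have h5 : ∀ᶠ x in (c n : Filter ℕ), (Nat.unpair (ψ x)).1 = n := by
      change ∀ᶠ j in (V : Filter ℕ), (Nat.unpair (ψ (φ (Nat.pair n j)))).1 = n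
      filter_upwards [hn2] with j hj
      rw [hj, Nat.unpair_pair]
    have h6 : ∀ᶠ x in (c n' : Filter ℕ), (Nat.unpair (ψ x)).1 = n' := by
      change ∀ᶠ j in (V : Filter ℕ), (Nat.unpair (ψ (φ (Nat.pair n' j)))).1 = n'
      filter_upwards [hn2'] with j hj
      rw [hj, Nat.unpair_pair]
    rw [hn1] at h5
    rw [hn1'] at h6
    obtain ⟨x, hx1, hx2⟩ := (h5.and h6).exists
    omega
  · obtain ⟨n, hn1, hn2⟩ := (c1.and h4).exists
    have h5 : ∀ᶠ j in (V : Filter ℕ), φ (Nat.pair n j) = h n := by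
      have h6 : ∀ᶠ x in (c n : Filter ℕ), x = h n := by
        rw [hn1]
        exact Filter.eventually_pure.2 rfl
      exact h6
    have h7 : ∀ᶠ j in (V : Filter ℕ), Nat.pair n j = ψ (h n) := by
      filter_upwards [h5, hn2] with j hj1 hj2
      rw [← hj1]
      exact hj2.symm
    obtain ⟨j, hj⟩ := h7.exists
    obtain ⟨j', hj'1, hj'2⟩ := (h7.and (gt_of_nonprincipal hV j)).exists
    have h8 := hj.trans hj'1.symm
    have h9 := (Nat.pair_eq_pair.1 h8).2
    omega

theorem nonprincipal_prodW (b : Ultrafilter ℕ) (l : List (Ultrafilter ℕ)) (hb : Nonprincipal b) :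
    Nonprincipal (prodW b l) := by
  cases l with
  | nil => exact hb
  | cons c l => exact nonprincipal_of_RK (RK_ten _ _) hb

/-- Let `A` be a set of pairwise Rudin-Keisler incomparable weak P-points. Then `A` generates a free
semigroup up to isomorphism: if the products of two nonempty words over `A` are isomorphic, then the
words are equal. -/
theorem result (A : Set (Ultrafilter ℕ)) (hA : ∀ a ∈ A, WeakPPoint a)
    (hinc : ∀ a ∈ A, ∀ b ∈ A, a ≠ b → ¬ RK a b) (a b : Ultrafilter ℕ)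
    (l l' : List (Ultrafilter ℕ)) (ha : a ∈ A) (hb : b ∈ A) (hl : ∀ x ∈ l, x ∈ A)
    (hl' : ∀ x ∈ l', x ∈ A) (h : Iso (prodW a l) (prodW b l')) : a :: l = b :: l' := by
  induction l generalizing a b l' with
  | nil =>
    cases l' with
    | nil =>
      by_contra hne
      exact hinc a ha b hb (fun h1 => hne (by rw [h1])) h.1
    | cons b' l' =>
      exfalso
      exact not_iso_ten (hA a ha) (nonprincipal_prodW b' l' (hA b' (hl' b' (by simp))).1) b
        (hA b hb).1 h
  | cons a' l ih =>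
    cases l' with
    | nil =>
      exfalso
      exact not_iso_ten (hA b hb) (nonprincipal_prodW a' l (hA a' (hl a' (by simp))).1) a
        (hA a ha).1 ⟨h.2, h.1⟩
    | cons b' l' =>
      have h1 := cancel (hA a ha) (hA b hb) h
      have h2 := cancel_rk (hA a ha) (hA b hb) h
      have h3 : b = a := by
        by_contra hne
        exact hinc b hb a ha hne h2
      have h4 := ih a' b' l' (hl a' (by simp)) (hl' b' (by simp))
        (fun x hx => hl x (by simp [hx])) (fun x hx => hl' x (by simp [hx])) h1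
      rw [h3, h4]

end Pool.Agent.Results.MP_55c7a7_lc.FreeSemigroup
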